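import Mathlib

/-!
# The gendo-symmetric algebra `End_{T(L)}(T(L) ⊕ L)` attached to a finite-dimensional algebra `L`
-/

set_option autoImplicit false

namespace Pool.Agent.H3.Gendo

open MulOpposite

universe u

section DB

variable (K : Type u) [Field K] (L : Type u) [Ring L] [Algebra K L]

/-- The dual `Hom_K(L, K)` of an algebra `L`, as a type of its own. -/
def DB : Type u := L →ₗ[K] K

instance : AddCommGroup (DB K L) := inferInstanceAs (AddCommGroup (L →ₗ[K] K))
instance : Module K (DB K L) := inferInstanceAs (Module K (L →ₗ[K] K))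

variable {K L}

/-- Evaluation of a functional. -/
def DB.ev (φ : DB K L) (x : L) : K := (show L →ₗ[K] K from φ) x

/-- The functional given by a linear map. -/
def DB.mk (φ : L →ₗ[K] K) : DB K L := φ

@[ext] theorem DB.ext {φ ψ : DB K L} (h : ∀ x, φ.ev x = ψ.ev x) : φ = ψ :=
  LinearMap.ext h

@[simp] theorem DB.ev_mk (φ : L →ₗ[K] K) (x : L) : (DB.mk φ).ev x = φ x := rfl
@[simp] theorem DB.ev_add (φ ψ : DB K L) (x : L) : (φ + ψ).ev x = φ.ev x + ψ.ev x := rfl
@[simp] theorem DB.ev_zero (x : L) : (0 : DB K L).ev x = 0 := rfl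
@[simp] theorem DB.ev_smul (c : K) (φ : DB K L) (x : L) : (c • φ).ev x = c * φ.ev x := rfl
@[simp] theorem DB.ev_add' (φ : DB K L) (x y : L) : φ.ev (x + y) = φ.ev x + φ.ev y :=
  map_add (show L →ₗ[K] K from φ) x y
@[simp] theorem DB.ev_zero' (φ : DB K L) : φ.ev 0 = 0 :=
  map_zero (show L →ₗ[K] K from φ)
@[simp] theorem DB.ev_smul' (φ : DB K L) (c : K) (x : L) : φ.ev (c • x) = c * φ.ev x :=
  map_smul (show L →ₗ[K] K from φ) c x

/-- The left action: `(a φ)(x) = φ(x a)`. -/
instance : Module L (DB K L) where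
  smul a φ := DB.mk ((show L →ₗ[K] K from φ) ∘ₗ LinearMap.mulRight K a)
  one_smul φ := DB.ext fun x => congrArg φ.ev (mul_one x)
  mul_smul a b φ := DB.ext fun x => congrArg φ.ev (mul_assoc x a b).symm
  smul_zero a := rfl
  smul_add a φ ψ := rfl
  add_smul a b φ := DB.ext fun x => by
    show φ.ev (x * (a + b)) = φ.ev (x * a) + φ.ev (x * b)
    rw [mul_add, DB.ev_add']
  zero_smul φ := DB.ext fun x => by
    show φ.ev (x * 0) = 0
    rw [mul_zero, DB.ev_zero']

theorem DB.ev_lsmul (a : L) (φ : DB K L) (x : L) : (a • φ).ev x = φ.ev (x * a) := rfl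

/-- The right action: `(φ a)(x) = φ(a x)`. -/
instance : Module Lᵐᵒᵖ (DB K L) where
  smul a φ := DB.mk ((show L →ₗ[K] K from φ) ∘ₗ LinearMap.mulLeft K a.unop)
  one_smul φ := DB.ext fun x => congrArg φ.ev (one_mul x)
  mul_smul a b φ := DB.ext fun x => congrArg φ.ev (mul_assoc b.unop a.unop x)
  smul_zero a := rfl
  smul_add a φ ψ := rfl
  add_smul a b φ := DB.ext fun x => by
    show φ.ev ((a.unop + b.unop) * x) = φ.ev (a.unop * x) + φ.ev (b.unop * x)
    rw [add_mul, DB.ev_add']
  zero_smul φ := DB.ext fun x => by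
    show φ.ev (0 * x) = 0
    rw [zero_mul, DB.ev_zero']

theorem DB.ev_rsmul (a : L) (φ : DB K L) (x : L) : (op a • φ).ev x = φ.ev (a * x) := rfl

instance : SMulCommClass L Lᵐᵒᵖ (DB K L) where
  smul_comm a b φ := DB.ext fun x => congrArg φ.ev (mul_assoc b.unop x a).symm

instance : IsScalarTower K L (DB K L) where
  smul_assoc c a φ := DB.ext fun x => by
    show φ.ev (x * (c • a)) = c * φ.ev (x * a)
    rw [mul_smul_comm, DB.ev_smul']

instance : IsScalarTower K Lᵐᵒᵖ (DB K L) where
  smul_assoc c a φ := DB.ext fun x => by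
    show φ.ev ((c • a.unop) * x) = c * φ.ev (a.unop * x)
    rw [smul_mul_assoc, DB.ev_smul']

theorem DB.finite [Module.Finite K L] : Module.Finite K (DB K L) :=
  inferInstanceAs (Module.Finite K (L →ₗ[K] K))

theorem DB.eq_zero_of_ev (x : L) (h : ∀ φ : DB K L, φ.ev x = 0) : x = 0 :=
  (Module.forall_dual_apply_eq_zero_iff K x).1 fun φ => h (DB.mk φ)

end DB

section TE

variable (K : Type u) [Field K] (L : Type u) [Ring L] [Algebra K L]

/-- The trivial extension algebra `T(L) = L ⋉ Hom_K(L, K)`. -/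
abbrev TE : Type u := TrivSqZeroExt L (DB K L)

variable {K L}

/-- The bilinear pairing `⟨(a, φ), (b, ψ)⟩ = φ(b) + ψ(a)` on the trivial extension. -/
def TE.form : TE K L →ₗ[K] Module.Dual K (TE K L) where
  toFun x :=
    { toFun := fun y => x.snd.ev y.fst + y.snd.ev x.fst
      map_add' := fun y z => by
        simp only [TrivSqZeroExt.fst_add, TrivSqZeroExt.snd_add, DB.ev_add', DB.ev_add]
        ring
      map_smul' := fun c y => by
        simp only [TrivSqZeroExt.fst_smul, TrivSqZeroExt.snd_smul, DB.ev_smul', DB.ev_smul,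
          RingHom.id_apply, smul_eq_mul]
        ring }
  map_add' x y := LinearMap.ext fun z => by
    simp only [LinearMap.coe_mk, AddHom.coe_mk, LinearMap.add_apply,
      TrivSqZeroExt.fst_add, TrivSqZeroExt.snd_add, DB.ev_add', DB.ev_add]
    ring
  map_smul' c x := LinearMap.ext fun y => by
    simp only [LinearMap.coe_mk, AddHom.coe_mk, LinearMap.smul_apply,
      TrivSqZeroExt.fst_smul, TrivSqZeroExt.snd_smul, DB.ev_smul', DB.ev_smul,
          RingHom.id_apply, smul_eq_mul]
    ring

theorem TE.form_apply (x y : TE K L) : TE.form x y = x.snd.ev y.fst + y.snd.ev x.fst := rfl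

theorem TE.form_inj : Function.Injective (TE.form (K := K) (L := L)) := by
  rw [← LinearMap.ker_eq_bot, LinearMap.ker_eq_bot']
  intro x hx
  have h1 : ∀ b : L, x.snd.ev b = 0 := by
    intro b
    have := LinearMap.congr_fun hx (TrivSqZeroExt.inl b)
    simpa [TE.form_apply] using this
  have h2 : ∀ ψ : DB K L, ψ.ev x.fst = 0 := by
    intro ψ
    have := LinearMap.congr_fun hx (TrivSqZeroExt.inr ψ)
    simpa [TE.form_apply] using this
  exact TrivSqZeroExt.ext (DB.eq_zero_of_ev _ h2) (DB.ext h1)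

instance TE.finite [Module.Finite K L] : Module.Finite K (TE K L) :=
  have := DB.finite (K := K) (L := L)
  inferInstanceAs (Module.Finite K (L × DB K L))

theorem TE.form_assoc (a x b y : TE K L) :
    TE.form (a * x * b) y = TE.form x (b * y * a) := by
  simp only [TE.form_apply, TrivSqZeroExt.fst_mul, TrivSqZeroExt.snd_mul, DB.ev_add,
    DB.ev_lsmul, DB.ev_rsmul, mul_assoc]
  ring

end TE

end Pool.Agent.H3.Gendo
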