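import Mathlib

/-!
# Definitions: rigid modules, the numbers `o_k(A)`, symmetric and gendo-symmetric algebras

Right modules over a ring `A` are modules over `Aᵐᵒᵖ`.
-/

set_option autoImplicit false

namespace Pool.Agent.H3.Gendo

open CategoryTheory CategoryTheory.Limits CategoryTheory.Abelian

universe u

/-- A right module `M` over `A` is `k`-rigid if `Ext^i(M, M) = 0` for `1 ≤ i ≤ k`. -/
def Rigid (A : Type u) [Ring A] (k : ℕ) (M : ModuleCat.{u} Aᵐᵒᵖ) : Prop :=
  ∀ i : ℕ, 1 ≤ i → i ≤ k → Subsingleton (Ext M M i)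

/-- The number of isomorphism classes of indecomposable direct summands of a right module. -/
noncomputable def size {A : Type u} [Ring A] (M : ModuleCat.{u} Aᵐᵒᵖ) : ℕ∞ :=
  Set.encard {c : Quotient (isIsomorphicSetoid (ModuleCat.{u} Aᵐᵒᵖ)) |
    ∃ X Y : ModuleCat.{u} Aᵐᵒᵖ, Indecomposable X ∧ Nonempty (M ≅ X ⊞ Y) ∧ c = Quotient.mk _ X}

/-- `o_k(A)`: the supremum of the sizes of the finitely generated `k`-rigid right `A`-modules. -/
noncomputable def o (A : Type u) [Ring A] (k : ℕ) : ℕ∞ :=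
  ⨆ (M : ModuleCat.{u} Aᵐᵒᵖ) (_ : Module.Finite Aᵐᵒᵖ M) (_ : Rigid A k M), size M

/-- The algebras of the problem: finite-dimensional, connected (nonzero, with only the central
idempotents `0` and `1`) and not semisimple. -/
structure IsAlg (K A : Type u) [Field K] [Ring A] [Algebra K A] : Prop where
  finite : Module.Finite K A
  nontrivial : Nontrivial A
  connected : ∀ c : A, (∀ a : A, c * a = a * c) → c * c = c → c = 0 ∨ c = 1
  not_semisimple : ¬ IsSemisimpleRing A

/-- `B` is symmetric: there is an isomorphism `B ≅ Hom_K(B, K)` of `B`-bimodules, where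
`(a φ b)(y) = φ(b y a)`. -/
def IsSymm (K B : Type u) [Field K] [Ring B] [Algebra K B] : Prop :=
  ∃ e : B ≃ₗ[K] Module.Dual K B, ∀ a x b y : B, e (a * x * b) y = e x (b * y * a)

/-- `A` is gendo-symmetric: `A ≅ End_B(M)` for a symmetric algebra `B` and a finite-dimensional
right `B`-module `M` which is a generator (`B` is a direct summand of `M^n` for some `n`). -/
def IsGendoSymm (K A : Type u) [Field K] [Ring A] [Algebra K A] : Prop :=
  ∃ (B : Type u) (_ : Ring B) (_ : Algebra K B), IsAlg K B ∧ IsSymm K B ∧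
    ∃ (M : Type u) (_ : AddCommGroup M) (_ : Module K M) (_ : Module Bᵐᵒᵖ M)
      (_ : IsScalarTower K Bᵐᵒᵖ M), Module.Finite K M ∧
      (∃ (n : ℕ) (s : B →ₗ[Bᵐᵒᵖ] (Fin n → M)) (p : (Fin n → M) →ₗ[Bᵐᵒᵖ] B),
        p ∘ₗ s = LinearMap.id) ∧
      Nonempty (A ≃ₐ[K] Module.End Bᵐᵒᵖ M)

end Pool.Agent.H3.Gendo
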