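import Pool.Agent.H3.Gendo.Construct

/-!
# The endomorphism algebra of `T(L) ⊕ L` and the functor `X ↦ X ⊗ (L, L)`
-/

set_option autoImplicit false

namespace Pool.Agent.H3.Gendo

open MulOpposite

universe u

variable (K : Type u) [Field K] (L : Type u) [Ring L] [Algebra K L]

/-- The algebra `L` as a right module over the trivial extension `T(L)`. -/
def NB : Type u := L

instance : AddCommGroup (NB L) := inferInstanceAs (AddCommGroup L)
instance : Module K (NB L) := inferInstanceAs (Module K L)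

/-- The identity map `L → NB L`. -/
def toNB {L : Type u} (x : L) : NB L := x

/-- The identity map `NB L → L`. -/
def ofNB {L : Type u} (x : NB L) : L := x

instance : Module (TE K L)ᵐᵒᵖ (NB L) where
  smul b x := toNB (ofNB x * b.unop.fst)
  one_smul x := mul_one (ofNB x)
  mul_smul b c x := (mul_assoc (ofNB x) c.unop.fst b.unop.fst).symm
  smul_zero b := zero_mul b.unop.fst
  smul_add b x y := add_mul (ofNB x) (ofNB y) b.unop.fst
  add_smul b c x := mul_add (ofNB x) b.unop.fst c.unop.fst
  zero_smul x := mul_zero (ofNB x)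

variable {K L}

@[simp] theorem toNB_ofNB {L : Type u} (x : NB L) : toNB (ofNB x) = x := rfl
@[simp] theorem ofNB_toNB {L : Type u} (x : L) : ofNB (toNB x) = x := rfl
@[simp] theorem ofNB_add (x y : NB L) : ofNB (x + y) = ofNB x + ofNB y := rfl
@[simp] theorem ofNB_zero : ofNB (0 : NB L) = 0 := rfl

theorem ofNB_smul (b : TE K L) (x : NB L) : ofNB (op b • x) = ofNB x * b.fst := rfl
theorem ofNB_ksmul (c : K) (x : NB L) : ofNB (c • x) = c • ofNB x := rfl

instance : IsScalarTower K (TE K L)ᵐᵒᵖ (NB L) where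
  smul_assoc c b x := by
    show (ofNB x) * (c • b.unop.fst) = c • (ofNB x * b.unop.fst)
    rw [mul_smul_comm]

instance : SMulCommClass (TE K L)ᵐᵒᵖ K (NB L) where
  smul_comm b c x := by
    show (c • ofNB x) * b.unop.fst = c • (ofNB x * b.unop.fst)
    rw [smul_mul_assoc]

variable (K L)

/-- The generator `T(L) ⊕ L` of the category of right `T(L)`-modules. -/
abbrev GM : Type u := TE K L × NB L

/-- The endomorphism algebra of `T(L) ⊕ L`. -/
abbrev EA : Type u := Module.End (TE K L)ᵐᵒᵖ (GM K L)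

variable {K L}

/-- First basis vector. -/
def v1 : GM K L := (1, 0)
/-- Second basis vector. -/
def v2 : GM K L := (0, toNB 1)

theorem gm_eq (m : GM K L) :
    m = op m.1 • (v1 : GM K L) + op (TrivSqZeroExt.inl (ofNB m.2) : TE K L) • (v2 : GM K L) := by
  refine Prod.ext ?_ ?_
  · show m.1 = 1 * m.1 + 0 * _
    rw [one_mul, zero_mul, add_zero]
  · show ofNB m.2 = (0 : L) * m.1.fst + 1 * ofNB m.2
    rw [zero_mul, zero_add, one_mul]

/-- Matrix entries of an endomorphism modulo the dual. -/
def c11 (a : EA K L) : L := (a v1).1.fst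
/-- Matrix entry. -/
def c21 (a : EA K L) : L := ofNB (a v1).2
/-- Matrix entry. -/
def c22 (a : EA K L) : L := ofNB (a v2).2

theorem fst_av2 (a : EA K L) : (a v2).1.fst = 0 := by
  have h : ∀ ψ : DB K L, (a v2).1.fst • ψ = 0 := by
    intro ψ
    have h1 : op (TrivSqZeroExt.inr ψ : TE K L) • (v2 : GM K L) = 0 := by
      refine Prod.ext ?_ ?_
      · show (0 : TE K L) * _ = 0
        rw [zero_mul]
      · show (1 : L) * _ = 0
        rw [unop_op, TrivSqZeroExt.fst_inr, mul_zero]
    have h2 : op (TrivSqZeroExt.inr ψ : TE K L) • a v2 = 0 := by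
      rw [← map_smul, h1, map_zero]
    have h3 : ((a v2).1 * TrivSqZeroExt.inr ψ : TE K L) = 0 := congrArg Prod.fst h2
    have h4 := congrArg TrivSqZeroExt.snd h3
    simpa using h4
  apply DB.eq_zero_of_ev (K := K)
  intro φ
  have h1 := congrArg (fun χ => DB.ev χ 1) (h φ)
  simpa [DB.ev_lsmul] using h1

theorem a_fst (a : EA K L) (m : GM K L) : (a m).1.fst = c11 a * m.1.fst := by
  conv_lhs => rw [gm_eq m]
  rw [map_add, map_smul, map_smul]
  show ((a v1).1 * m.1 + (a v2).1 * TrivSqZeroExt.inl (ofNB m.2)).fst = _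
  rw [TrivSqZeroExt.fst_add, TrivSqZeroExt.fst_mul, TrivSqZeroExt.fst_mul, fst_av2, zero_mul,
    add_zero]
  rfl

theorem a_snd (a : EA K L) (m : GM K L) :
    ofNB (a m).2 = c21 a * m.1.fst + c22 a * ofNB m.2 := by
  conv_lhs => rw [gm_eq m]
  rw [map_add, map_smul, map_smul]
  rfl

theorem c11_mul (a b : EA K L) : c11 (a * b) = c11 a * c11 b := a_fst a (b v1)

theorem c21_mul (a b : EA K L) : c21 (a * b) = c21 a * c11 b + c22 a * c21 b := a_snd a (b v1)

theorem c22_mul (a b : EA K L) : c22 (a * b) = c22 a * c22 b := by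
  have h := a_snd a (b v2)
  rw [fst_av2, mul_zero, zero_add] at h
  exact h

@[simp] theorem c11_add (a b : EA K L) : c11 (a + b) = c11 a + c11 b := rfl
@[simp] theorem c21_add (a b : EA K L) : c21 (a + b) = c21 a + c21 b := rfl
@[simp] theorem c22_add (a b : EA K L) : c22 (a + b) = c22 a + c22 b := rfl
@[simp] theorem c11_zero : c11 (0 : EA K L) = 0 := rfl
@[simp] theorem c21_zero : c21 (0 : EA K L) = 0 := rfl
@[simp] theorem c22_zero : c22 (0 : EA K L) = 0 := rfl
@[simp] theorem c11_one : c11 (1 : EA K L) = 1 := rfl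
@[simp] theorem c21_one : c21 (1 : EA K L) = 0 := rfl
@[simp] theorem c22_one : c22 (1 : EA K L) = 1 := rfl

/-- The endomorphism `(b, n) ↦ (0, x b + y n)`. -/
def U (x y : L) : EA K L where
  toFun m := (0, toNB (x * m.1.fst + y * ofNB m.2))
  map_add' m n := by
    refine Prod.ext (by simp) ?_
    show x * (m.1.fst + n.1.fst) + y * (ofNB m.2 + ofNB n.2) = _
    rw [mul_add, mul_add]
    show _ = (x * m.1.fst + y * ofNB m.2) + (x * n.1.fst + y * ofNB n.2)
    abel
  map_smul' b m := by
    refine Prod.ext ?_ ?_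
    · show (0 : TE K L) = (0 : TE K L) * b.unop
      rw [zero_mul]
    · show x * (m.1 * b.unop).fst + y * (ofNB m.2 * b.unop.fst) =
        (x * m.1.fst + y * ofNB m.2) * b.unop.fst
      rw [TrivSqZeroExt.fst_mul, add_mul, mul_assoc, mul_assoc]

@[simp] theorem c11_U (x y : L) : c11 (U x y : EA K L) = 0 := rfl
@[simp] theorem c21_U (x y : L) : c21 (U x y : EA K L) = x := by
  show x * 1 + y * 0 = x
  rw [mul_one, mul_zero, add_zero]
@[simp] theorem c22_U (x y : L) : c22 (U x y : EA K L) = y := by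
  show x * 0 + y * 1 = y
  rw [mul_one, mul_zero, zero_add]

theorem U_mul (x y : L) (a : EA K L) :
    U x y * a = U (x * c11 a + y * c21 a) (y * c22 a) := by
  refine LinearMap.ext fun m => Prod.ext rfl ?_
  show x * (a m).1.fst + y * ofNB (a m).2 =
    (x * c11 a + y * c21 a) * m.1.fst + (y * c22 a) * ofNB m.2
  rw [a_fst, a_snd, mul_add, add_mul, mul_assoc, mul_assoc, mul_assoc, add_assoc]

theorem U_add (x y x' y' : L) : (U (x + x') (y + y') : EA K L) = U x y + U x' y' := by
  refine LinearMap.ext fun m => Prod.ext ?_ ?_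
  · show (0 : TE K L) = 0 + 0
    rw [add_zero]
  · show (x + x') * m.1.fst + (y + y') * ofNB m.2 =
      (x * m.1.fst + y * ofNB m.2) + (x' * m.1.fst + y' * ofNB m.2)
    rw [add_mul, add_mul]
    abel

theorem U_zero : (U 0 0 : EA K L) = 0 := by
  refine LinearMap.ext fun m => Prod.ext ?_ ?_
  · rfl
  · show (0 : L) * m.1.fst + 0 * ofNB m.2 = 0
    rw [zero_mul, zero_mul, add_zero]

/-- An endomorphism with trivial matrix. -/
theorem sq_zero (a : EA K L) (h1 : c11 a = 0) (h2 : c21 a = 0) (h3 : c22 a = 0) : a * a = 0 := by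
  have key : ∀ m : GM K L, (m.1.fst = 0) → (ofNB m.2 = 0) → a m = 0 := by
    intro m hm1 hm2
    have e : m = op (TrivSqZeroExt.inr m.1.snd : TE K L) • (v1 : GM K L) := by
      refine Prod.ext ?_ ?_
      · show m.1 = 1 * TrivSqZeroExt.inr m.1.snd
        rw [one_mul]
        exact TrivSqZeroExt.ext (by simpa using hm1) (by simp)
      · show ofNB m.2 = 0 * _
        rw [zero_mul, hm2]
    rw [e, map_smul]
    refine Prod.ext ?_ ?_
    · show (a v1).1 * TrivSqZeroExt.inr m.1.snd = 0
      have h4 : (a v1).1.fst = 0 := h1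
      refine TrivSqZeroExt.ext ?_ ?_
      · simp
      · simp [h4]
    · show ofNB (a v1).2 * _ = 0
      rw [unop_op, TrivSqZeroExt.fst_inr, mul_zero]
  refine LinearMap.ext fun m => ?_
  refine key (a m) ?_ ?_
  · rw [a_fst, h1, zero_mul]
  · rw [a_snd, h2, h3, zero_mul, zero_mul, add_zero]

end Pool.Agent.H3.Gendo
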