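import Pool.Agent.H3.Gendo.Functor
import Pool.Agent.H3.Rig.RigExt
import Pool.Agent.H3.Rig.RigDefs

/-!
# The functor preserves vanishing of `Ext`, indecomposability and finite generation
-/

set_option autoImplicit false

namespace Pool.Agent.H3.Gendo

open MulOpposite CategoryTheory CategoryTheory.Limits CategoryTheory.Abelian

universe u

section shift

variable {R : Type u} [Ring R] {M P N Y : Type u}
  [AddCommGroup M] [AddCommGroup P] [AddCommGroup N] [AddCommGroup Y]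
  [Module R M] [Module R P] [Module R N] [Module R Y]

theorem ext_unstep (i : N →ₗ[R] P) (p : P →ₗ[R] M) (hex : Function.Exact i p)
    (hi : Function.Injective i) (hp : Function.Surjective p) [Module.Projective R P] (n : ℕ)
    (h : Subsingleton (Ext (ModuleCat.of R M) (ModuleCat.of R Y) (n + 2))) :
    Subsingleton (Ext (ModuleCat.of R N) (ModuleCat.of R Y) (n + 1)) := by
  refine subsingleton_of_forall_eq 0 fun x => ?_
  have hS := W450.Rig.sc_exact i p hex hi hp
  have : Projective (ModuleCat.of R P) := inferInstance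
  obtain ⟨y, hy⟩ := Ext.contravariant_sequence_exact₁ (S := W450.Rig.sc i p hex) hS
    (ModuleCat.of R Y) (n₀ := n + 1) (n₁ := n + 2) x (by omega)
    (@Subsingleton.elim _ h _ _)
  have h0 : y = 0 := Ext.eq_zero_of_projective (P := ModuleCat.of R P) _
  rw [← hy, h0, Ext.comp_zero]
  rfl

theorem ext_one_inv (i : N →ₗ[R] P) (p : P →ₗ[R] M) (hex : Function.Exact i p)
    (hi : Function.Injective i) (hp : Function.Surjective p)
    (h : Subsingleton (Ext (ModuleCat.of R M) (ModuleCat.of R Y) 1)) (g : N →ₗ[R] Y) :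
    ∃ g' : P →ₗ[R] Y, g' ∘ₗ i = g := by
  have hS := W450.Rig.sc_exact i p hex hi hp
  obtain ⟨y, hy⟩ := Ext.contravariant_sequence_exact₁ (S := W450.Rig.sc i p hex) hS
    (ModuleCat.of R Y) (n₀ := 0) (n₁ := 1) (Ext.mk₀ (ModuleCat.ofHom g)) (by omega)
    (@Subsingleton.elim _ h _ _)
  obtain ⟨g', rfl⟩ := Ext.addEquiv₀.symm.surjective y
  refine ⟨g'.hom, ?_⟩
  have h1 : Ext.mk₀ ((W450.Rig.sc i p hex).f ≫ g') = Ext.mk₀ (ModuleCat.ofHom g) := by
    rw [← Ext.mk₀_comp_mk₀]
    exact hy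
  have h2 := (Ext.mk₀_bijective _ _).1 h1
  exact congrArg ModuleCat.Hom.hom h2

end shift

variable {K : Type u} [Field K] {L : Type u} [Ring L] [Algebra K L]

section exact

variable {N P X : Type u} [AddCommGroup N] [AddCommGroup P] [AddCommGroup X]
  [Module Lᵐᵒᵖ N] [Module Lᵐᵒᵖ P] [Module Lᵐᵒᵖ X] (i : N →ₗ[Lᵐᵒᵖ] P) (p : P →ₗ[Lᵐᵒᵖ] X)

theorem exact_L2 (hex : Function.Exact i p) : Function.Exact (L2.map K i) (L2.map K p) := by
  intro z
  constructor
  · intro hz
    obtain ⟨a, ha⟩ := (hex z.fst).1 (congrArg L2.fst hz)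
    obtain ⟨b, hb⟩ := (hex z.snd).1 (congrArg L2.snd hz)
    exact ⟨⟨a, b⟩, L2.ext ha hb⟩
  · rintro ⟨w, rfl⟩
    exact L2.ext ((hex _).2 ⟨_, rfl⟩) ((hex _).2 ⟨_, rfl⟩)

theorem inj_L2 (hi : Function.Injective i) : Function.Injective (L2.map K i) := by
  intro z w hzw
  exact L2.ext (hi (congrArg L2.fst hzw)) (hi (congrArg L2.snd hzw))

theorem surj_L2 (hp : Function.Surjective p) : Function.Surjective (L2.map K p) := by
  intro z
  obtain ⟨a, ha⟩ := hp z.fst
  obtain ⟨b, hb⟩ := hp z.snd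
  exact ⟨⟨a, b⟩, L2.ext ha hb⟩

variable {Y : Type u} [AddCommGroup Y] [Module Lᵐᵒᵖ Y]

theorem ext_L2_one (hex : Function.Exact i p) (hi : Function.Injective i)
    (hp : Function.Surjective p) (hP : Module.Projective Lᵐᵒᵖ P)
    (h : Subsingleton (Ext (ModuleCat.of Lᵐᵒᵖ X) (ModuleCat.of Lᵐᵒᵖ Y) 1)) :
    Subsingleton (Ext (ModuleCat.of (EA K L)ᵐᵒᵖ (L2 X)) (ModuleCat.of (EA K L)ᵐᵒᵖ (L2 Y)) 1) := by
  have hPr := L2.projective (K := K) hP
  refine W450.Rig.ext_one (L2.map K i) (L2.map K p) (exact_L2 i p hex) (inj_L2 i hi)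
    (surj_L2 p hp) fun g => ?_
  obtain ⟨g0, rfl⟩ := L2.map_surj g
  obtain ⟨g', hg'⟩ := ext_one_inv i p hex hi hp h g0
  exact ⟨L2.map K g', by rw [← L2.map_comp, hg']⟩

theorem ext_L2_succ (n : ℕ) (hex : Function.Exact i p) (hi : Function.Injective i)
    (hp : Function.Surjective p) (hP : Module.Projective Lᵐᵒᵖ P)
    (h : Subsingleton (Ext (ModuleCat.of (EA K L)ᵐᵒᵖ (L2 N))
      (ModuleCat.of (EA K L)ᵐᵒᵖ (L2 Y)) (n + 1))) :
    Subsingleton (Ext (ModuleCat.of (EA K L)ᵐᵒᵖ (L2 X))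
      (ModuleCat.of (EA K L)ᵐᵒᵖ (L2 Y)) (n + 2)) := by
  have hPr := L2.projective (K := K) hP
  exact W450.Rig.ext_step (L2.map K i) (L2.map K p) (exact_L2 i p hex) (inj_L2 i hi)
    (surj_L2 p hp) (n + 1) h

end exact

theorem exists_pres (R : Type u) [Ring R] (X : Type u) [AddCommGroup X] [Module R X] :
    ∃ (N P : Type u) (_ : AddCommGroup N) (_ : AddCommGroup P) (_ : Module R N) (_ : Module R P)
      (i : N →ₗ[R] P) (p : P →ₗ[R] X), Function.Exact i p ∧ Function.Injective i ∧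
      Function.Surjective p ∧ Module.Projective R P :=
  ⟨LinearMap.ker (Finsupp.linearCombination R (id : X → X)), X →₀ R, inferInstance,
    inferInstance, inferInstance, inferInstance,
    (LinearMap.ker (Finsupp.linearCombination R (id : X → X))).subtype,
    Finsupp.linearCombination R (id : X → X), LinearMap.exact_subtype_ker_map _,
    Submodule.subtype_injective _, Finsupp.linearCombination_id_surjective R X, inferInstance⟩

/-- The functor preserves vanishing of `Ext^i`, `i ≥ 1`. -/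
theorem ext_L2 (n : ℕ) : ∀ (X Y : Type u) [AddCommGroup X] [Module Lᵐᵒᵖ X] [AddCommGroup Y]
    [Module Lᵐᵒᵖ Y], Subsingleton (Ext (ModuleCat.of Lᵐᵒᵖ X) (ModuleCat.of Lᵐᵒᵖ Y) (n + 1)) →
    Subsingleton (Ext (ModuleCat.of (EA K L)ᵐᵒᵖ (L2 X)) (ModuleCat.of (EA K L)ᵐᵒᵖ (L2 Y))
      (n + 1)) := by
  induction n with
  | zero =>
    intro X Y _ _ _ _ h
    obtain ⟨N, P, _, _, _, _, i, p, hex, hi, hp, hP⟩ := exists_pres Lᵐᵒᵖ X
    exact ext_L2_one i p hex hi hp hP h
  | succ n ih =>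
    intro X Y _ _ _ _ h
    obtain ⟨N, P, _, _, _, _, i, p, hex, hi, hp, hP⟩ := exists_pres Lᵐᵒᵖ X
    exact ext_L2_succ i p n hex hi hp hP (ih N Y (ext_unstep i p hex hi hp n h))

/-- Finite generation is preserved. -/
theorem finite_L2 {X : Type u} [AddCommGroup X] [Module Lᵐᵒᵖ X] (h : Module.Finite Lᵐᵒᵖ X) :
    Module.Finite (EA K L)ᵐᵒᵖ (L2 X) := by
  obtain ⟨S, hS⟩ := h
  classical
  refine ⟨⟨S.image (fun x => (⟨0, x⟩ : L2 X)), ?_⟩⟩
  rw [Submodule.eq_top_iff']
  have key : ∀ x : X, (⟨0, x⟩ : L2 X) ∈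
      Submodule.span (EA K L)ᵐᵒᵖ ((S.image (fun x => (⟨0, x⟩ : L2 X)) : Finset (L2 X)) :
        Set (L2 X)) := by
    intro x
    have hx : x ∈ Submodule.span Lᵐᵒᵖ (S : Set X) := by rw [hS]; trivial
    induction hx using Submodule.span_induction with
    | mem y hy =>
      apply Submodule.subset_span
      rw [Finset.coe_image]
      exact ⟨y, hy, rfl⟩
    | zero => exact Submodule.zero_mem _
    | add y z _ _ hy hz =>
      have e : (⟨0, y + z⟩ : L2 X) = ⟨0, y⟩ + ⟨0, z⟩ := L2.ext (by simp) (by simp)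
      rw [e]
      exact Submodule.add_mem _ hy hz
    | smul a y _ hy =>
      have e : (⟨0, a • y⟩ : L2 X) = op (U 0 a.unop : EA K L) • (⟨0, y⟩ : L2 X) := by
        rw [L2.act_U]
        simp
      rw [e]
      exact Submodule.smul_mem _ _ hy
  intro z
  have e1 : z = op (U 1 0 : EA K L) • (⟨0, z.fst⟩ : L2 X) + (⟨0, z.snd⟩ : L2 X) := by
    rw [L2.act_U]
    exact L2.ext (by simp) (by simp)
  rw [e1]
  exact Submodule.add_mem _ (Submodule.smul_mem _ _ (key _)) (key _)

/-- A module is indecomposable as soon as it is nonzero and has only trivial idempotent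
endomorphisms. -/
theorem indec_of_idem {R : Type u} [Ring R] {X : Type u} [AddCommGroup X] [Module R X]
    (h0 : Nontrivial X) (h : ∀ e : X →ₗ[R] X, e ∘ₗ e = e → e = 0 ∨ e = LinearMap.id) :
    Indecomposable (ModuleCat.of R X) := by
  constructor
  · intro h1
    have : Subsingleton X := ModuleCat.isZero_iff_subsingleton.1 h1
    exact not_subsingleton X this
  · intro Y Z e
    let p : ModuleCat.of R X ⟶ ModuleCat.of R X := e.hom ≫ biprod.fst ≫ biprod.inl ≫ e.inv
    have hp : p ≫ p = p := by simp [p]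
    rcases h p.hom (congrArg ModuleCat.Hom.hom hp) with h1 | h1
    · left
      have hp0 : p = 0 := ModuleCat.hom_ext h1
      rw [IsZero.iff_id_eq_zero]
      have : (𝟙 Y : Y ⟶ Y) = biprod.inl ≫ e.inv ≫ p ≫ e.hom ≫ biprod.fst := by simp [p]
      rw [this, hp0]
      simp
    · right
      have hp1 : p = 𝟙 _ := ModuleCat.hom_ext h1
      rw [IsZero.iff_id_eq_zero]
      have h2 : (𝟙 Z : Z ⟶ Z) = biprod.inr ≫ e.inv ≫ 𝟙 _ ≫ e.hom ≫ biprod.snd := by simp
      rw [h2, ← hp1]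
      simp [p]

/-- Idempotent endomorphisms of an indecomposable module are trivial. -/
theorem idem_of_indec {R : Type u} [Ring R] {X : Type u} [AddCommGroup X] [Module R X]
    (h : Indecomposable (ModuleCat.of R X)) (e : X →ₗ[R] X) (he : e ∘ₗ e = e) :
    e = 0 ∨ e = LinearMap.id := by
  have hc : IsCompl (LinearMap.range e) (LinearMap.ker e) := by
    refine ⟨?_, ?_⟩
    · rw [Submodule.disjoint_def]
      rintro _ ⟨y, rfl⟩ hy
      have := LinearMap.congr_fun he y
      rw [← this]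
      exact hy
    · rw [codisjoint_iff, Submodule.eq_top_iff']
      intro x
      have e1 : x = e x + (x - e x) := by abel
      rw [e1]
      refine Submodule.add_mem_sup ⟨x, rfl⟩ ?_
      rw [LinearMap.mem_ker, map_sub]
      have := LinearMap.congr_fun he x
      rw [sub_eq_zero]
      exact this.symm
  let E : (LinearMap.range e × LinearMap.ker e) ≃ₗ[R] X :=
    Submodule.prodEquivOfIsCompl _ _ hc
  let I : ModuleCat.of R X ≅ ModuleCat.of R (LinearMap.range e) ⊞
      ModuleCat.of R (LinearMap.ker e) :=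
    E.symm.toModuleIso ≪≫ (ModuleCat.biprodIsoProd (ModuleCat.of R (LinearMap.range e))
      (ModuleCat.of R (LinearMap.ker e))).symm
  rcases h.2 _ _ I with h1 | h1
  · left
    have h2 : Subsingleton (LinearMap.range e) := ModuleCat.isZero_iff_subsingleton.1 h1
    refine LinearMap.ext fun x => ?_
    have := @Subsingleton.elim _ h2 ⟨e x, ⟨x, rfl⟩⟩ 0
    exact congrArg Subtype.val this
  · right
    have h2 : Subsingleton (LinearMap.ker e) := ModuleCat.isZero_iff_subsingleton.1 h1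
    refine LinearMap.ext fun x => ?_
    have hx : e (x - e x) = 0 := by
      rw [map_sub, sub_eq_zero]
      exact (LinearMap.congr_fun he x).symm
    have := @Subsingleton.elim _ h2 ⟨x - e x, hx⟩ 0
    have h3 : x - e x = 0 := congrArg Subtype.val this
    exact (sub_eq_zero.1 h3).symm

/-- Indecomposability is preserved. -/
theorem indec_L2 {X : Type u} [AddCommGroup X] [Module Lᵐᵒᵖ X]
    (h : Indecomposable (ModuleCat.of Lᵐᵒᵖ X)) :
    Indecomposable (ModuleCat.of (EA K L)ᵐᵒᵖ (L2 X)) := by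
  have h0 : Nontrivial X := by
    by_contra hn
    rw [not_nontrivial_iff_subsingleton] at hn
    exact h.1 (ModuleCat.isZero_iff_subsingleton.2 hn)
  apply indec_of_idem
  · obtain ⟨x, hx⟩ := exists_ne (0 : X)
    exact ⟨⟨⟨x, 0⟩, 0, fun e => hx (congrArg L2.fst e)⟩⟩
  · intro e he
    obtain ⟨g, rfl⟩ := L2.map_surj e
    rw [← L2.map_comp] at he
    rcases idem_of_indec h g (L2.map_inj he) with h1 | h1
    · left; rw [h1]; rfl
    · right; rw [h1]; rfl

/-- The functor reflects isomorphism. -/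
theorem iso_L2 {X Y : Type u} [AddCommGroup X] [Module Lᵐᵒᵖ X] [AddCommGroup Y] [Module Lᵐᵒᵖ Y]
    (h : Nonempty (ModuleCat.of (EA K L)ᵐᵒᵖ (L2 X) ≅ ModuleCat.of (EA K L)ᵐᵒᵖ (L2 Y))) :
    Nonempty (ModuleCat.of Lᵐᵒᵖ X ≅ ModuleCat.of Lᵐᵒᵖ Y) := by
  obtain ⟨e⟩ := h
  obtain ⟨f, hf⟩ := L2.map_surj e.hom.hom
  obtain ⟨g, hg⟩ := L2.map_surj e.inv.hom
  have h1 : g ∘ₗ f = LinearMap.id := by
    apply L2.map_inj (K := K)
    rw [L2.map_comp, ← hf, ← hg]
    exact congrArg ModuleCat.Hom.hom e.hom_inv_id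
  have h2 : f ∘ₗ g = LinearMap.id := by
    apply L2.map_inj (K := K)
    rw [L2.map_comp, ← hf, ← hg]
    exact congrArg ModuleCat.Hom.hom e.inv_hom_id
  exact ⟨(LinearEquiv.ofLinearMap f g h2 h1).toModuleIso⟩

open W450.Rig in
/-- Orthogonal families are transported. -/
theorem orth_L2 {X : ℕ → ModuleCat.{u} Lᵐᵒᵖ} (h : IsOrthFamily X) :
    IsOrthFamily (fun n => ModuleCat.of (EA K L)ᵐᵒᵖ (L2 (X n))) where
  fin n := finite_L2 (h.fin n)
  indec n := indec_L2 (h.indec n)
  inj m n e := h.inj m n (iso_L2 e)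
  ext m n i hi := by
    obtain ⟨j, rfl⟩ : ∃ j, i = j + 1 := ⟨i - 1, by omega⟩
    exact ext_L2 j (X m) (X n) (h.ext m n (j + 1) hi)

end Pool.Agent.H3.Gendo
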