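import Pool.Agent.H3.Gendo.Endo
import Pool.Agent.H3.Rig.RigExt

/-!
# The functor `X ↦ X ⊗ (L, L)` from right `L`-modules to right modules over the endomorphism algebra
-/

set_option autoImplicit false

namespace Pool.Agent.H3.Gendo

open MulOpposite

universe u

variable {K : Type u} [Field K] {L : Type u} [Ring L] [Algebra K L]

/-- The module `X ⊕ X`. -/
@[ext] structure L2 (X : Type u) : Type u where
  /-- first component -/
  fst : X
  /-- second component -/
  snd : X

namespace L2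

variable {X : Type u} [AddCommGroup X]

/-- Pairs. -/
def equiv (X : Type u) : L2 X ≃ X × X where
  toFun z := (z.fst, z.snd)
  invFun z := ⟨z.1, z.2⟩
  left_inv _ := rfl
  right_inv _ := rfl

instance : AddCommGroup (L2 X) := (equiv X).addCommGroup

@[simp] theorem fst_add (x y : L2 X) : (x + y).fst = x.fst + y.fst := rfl
@[simp] theorem snd_add (x y : L2 X) : (x + y).snd = x.snd + y.snd := rfl
@[simp] theorem fst_zero : (0 : L2 X).fst = 0 := rfl
@[simp] theorem snd_zero : (0 : L2 X).snd = 0 := rfl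

variable [Module Lᵐᵒᵖ X]

instance : Module (EA K L)ᵐᵒᵖ (L2 X) where
  smul a z := ⟨op (c11 a.unop) • z.fst + op (c21 a.unop) • z.snd, op (c22 a.unop) • z.snd⟩
  one_smul z := by
    refine L2.ext ?_ ?_
    · show op (1 : L) • z.fst + op (0 : L) • z.snd = _
      rw [op_one, one_smul, op_zero, zero_smul, add_zero]
    · show op (1 : L) • z.snd = _
      rw [op_one, one_smul]
  mul_smul a b z := by
    refine L2.ext ?_ ?_
    · show op (c11 (b.unop * a.unop)) • z.fst + op (c21 (b.unop * a.unop)) • z.snd =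
        op (c11 a.unop) • (op (c11 b.unop) • z.fst + op (c21 b.unop) • z.snd) +
          op (c21 a.unop) • (op (c22 b.unop) • z.snd)
      rw [c11_mul, c21_mul, op_mul, mul_smul, op_add, add_smul, op_mul, mul_smul, op_mul,
        mul_smul, smul_add, add_assoc]
    · show op (c22 (b.unop * a.unop)) • z.snd = op (c22 a.unop) • op (c22 b.unop) • z.snd
      rw [c22_mul, op_mul, mul_smul]
  smul_zero a := by
    refine L2.ext ?_ ?_
    · show op (c11 a.unop) • (0 : X) + op (c21 a.unop) • (0 : X) = 0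
      rw [smul_zero, smul_zero, add_zero]
    · show op (c22 a.unop) • (0 : X) = 0
      rw [smul_zero]
  smul_add a x y := by
    refine L2.ext ?_ ?_
    · show op (c11 a.unop) • (x.fst + y.fst) + op (c21 a.unop) • (x.snd + y.snd) =
        (op (c11 a.unop) • x.fst + op (c21 a.unop) • x.snd) +
        (op (c11 a.unop) • y.fst + op (c21 a.unop) • y.snd)
      rw [smul_add, smul_add]
      abel
    · show op (c22 a.unop) • (x.snd + y.snd) = op (c22 a.unop) • x.snd + op (c22 a.unop) • y.snd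
      rw [smul_add]
  add_smul a b x := by
    refine L2.ext ?_ ?_
    · show op (c11 a.unop + c11 b.unop) • x.fst + op (c21 a.unop + c21 b.unop) • x.snd =
        (op (c11 a.unop) • x.fst + op (c21 a.unop) • x.snd) +
        (op (c11 b.unop) • x.fst + op (c21 b.unop) • x.snd)
      rw [op_add, op_add, add_smul, add_smul]
      abel
    · show op (c22 a.unop + c22 b.unop) • x.snd = op (c22 a.unop) • x.snd + op (c22 b.unop) • x.snd
      rw [op_add, add_smul]
  zero_smul x := by
    refine L2.ext ?_ ?_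
    · show op (0 : L) • x.fst + op (0 : L) • x.snd = 0
      rw [op_zero, zero_smul, zero_smul, add_zero]
    · show op (0 : L) • x.snd = 0
      rw [op_zero, zero_smul]

theorem smul_def (a : EA K L) (z : L2 X) :
    op a • z = ⟨op (c11 a) • z.fst + op (c21 a) • z.snd, op (c22 a) • z.snd⟩ := rfl

theorem smul_fst (a : (EA K L)ᵐᵒᵖ) (z : L2 X) :
    (a • z).fst = op (c11 a.unop) • z.fst + op (c21 a.unop) • z.snd := rfl

theorem smul_snd (a : (EA K L)ᵐᵒᵖ) (z : L2 X) : (a • z).snd = op (c22 a.unop) • z.snd := rfl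

variable {Y Z : Type u} [AddCommGroup Y] [Module Lᵐᵒᵖ Y] [AddCommGroup Z] [Module Lᵐᵒᵖ Z]

variable (K) in
/-- The functor on morphisms. -/
def map (g : X →ₗ[Lᵐᵒᵖ] Y) : L2 X →ₗ[(EA K L)ᵐᵒᵖ] L2 Y where
  toFun z := ⟨g z.fst, g z.snd⟩
  map_add' x y := L2.ext (map_add g _ _) (map_add g _ _)
  map_smul' a z := by
    refine L2.ext ?_ ?_
    · show g (op (c11 a.unop) • z.fst + op (c21 a.unop) • z.snd) =
        op (c11 a.unop) • g z.fst + op (c21 a.unop) • g z.snd
      rw [map_add, map_smul, map_smul]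
    · show g (op (c22 a.unop) • z.snd) = op (c22 a.unop) • g z.snd
      rw [map_smul]

@[simp] theorem map_fst (g : X →ₗ[Lᵐᵒᵖ] Y) (z : L2 X) : (map K g z).fst = g z.fst := rfl
@[simp] theorem map_snd (g : X →ₗ[Lᵐᵒᵖ] Y) (z : L2 X) : (map K g z).snd = g z.snd := rfl

theorem act_U (x y : L) (z : L2 X) :
    op (U x y : EA K L) • z = ⟨op x • z.snd, op y • z.snd⟩ := by
  rw [smul_def]
  simp

/-- The functor is full. -/
theorem map_surj (h : L2 X →ₗ[(EA K L)ᵐᵒᵖ] L2 Y) : ∃ g : X →ₗ[Lᵐᵒᵖ] Y, h = map K g := by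
  have h0 : ∀ x : X, (h ⟨0, x⟩).fst = 0 := by
    intro x
    have e : (⟨0, x⟩ : L2 X) = op (U 0 1 : EA K L) • (⟨0, x⟩ : L2 X) := by
      rw [act_U]
      simp
    rw [e, map_smul, act_U]
    simp
  let g : X →ₗ[Lᵐᵒᵖ] Y :=
    { toFun := fun x => (h ⟨0, x⟩).snd
      map_add' := fun x y => by
        have e : (⟨0, x + y⟩ : L2 X) = ⟨0, x⟩ + ⟨0, y⟩ := L2.ext (by simp) (by simp)
        rw [e, map_add]
        rfl
      map_smul' := fun a x => by
        have e : (⟨0, a • x⟩ : L2 X) = op (U 0 a.unop : EA K L) • (⟨0, x⟩ : L2 X) := by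
          rw [act_U]
          simp
        rw [e, map_smul, act_U]
        simp }
  refine ⟨g, LinearMap.ext fun z => ?_⟩
  have e1 : z = op (U 1 0 : EA K L) • (⟨0, z.fst⟩ : L2 X) + (⟨0, z.snd⟩ : L2 X) := by
    rw [act_U]
    exact L2.ext (by simp) (by simp)
  have e2 : h z = op (U 1 0 : EA K L) • h ⟨0, z.fst⟩ + h ⟨0, z.snd⟩ := by
    conv_lhs => rw [e1]
    rw [map_add, map_smul]
  rw [e2, act_U]
  refine L2.ext ?_ ?_
  · show op (1 : L) • (h ⟨0, z.fst⟩).snd + (h ⟨0, z.snd⟩).fst = (h ⟨0, z.fst⟩).snd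
    rw [h0, add_zero, op_one, one_smul]
  · show op (0 : L) • (h ⟨0, z.fst⟩).snd + (h ⟨0, z.snd⟩).snd = (h ⟨0, z.snd⟩).snd
    rw [op_zero, zero_smul, zero_add]

theorem map_inj {g g' : X →ₗ[Lᵐᵒᵖ] Y} (h : map K g = map K g') : g = g' :=
  LinearMap.ext fun x => congrArg L2.snd (LinearMap.congr_fun h ⟨0, x⟩)

variable (K) in
@[simp] theorem map_id : map K (LinearMap.id : X →ₗ[Lᵐᵒᵖ] X) = LinearMap.id := rfl

theorem map_comp (g : X →ₗ[Lᵐᵒᵖ] Y) (g' : Y →ₗ[Lᵐᵒᵖ] Z) :
    map K (g' ∘ₗ g) = map K g' ∘ₗ map K g := rfl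

/-- The functor preserves projective modules. -/
theorem projective (hP : Module.Projective Lᵐᵒᵖ X) :
    Module.Projective (EA K L)ᵐᵒᵖ (L2 X) := by
  classical
  obtain ⟨s, hs⟩ := Module.projective_def.1 hP
  let S : L2 X →ₗ[(EA K L)ᵐᵒᵖ] (X →₀ (EA K L)ᵐᵒᵖ) :=
    { toFun := fun z => Finsupp.zipWith (fun a b : Lᵐᵒᵖ => op (U a.unop b.unop : EA K L))
        (by
          show op (U 0 0 : EA K L) = 0
          rw [U_zero, op_zero]) (s z.fst) (s z.snd)
      map_add' := fun x y => by
        refine Finsupp.ext fun i => ?_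
        rw [Finsupp.add_apply, Finsupp.zipWith_apply, Finsupp.zipWith_apply,
          Finsupp.zipWith_apply]
        simp only [fst_add, snd_add, map_add, Finsupp.add_apply, unop_add, U_add, op_add]
      map_smul' := fun a z => by
        refine Finsupp.ext fun i => ?_
        rw [Finsupp.smul_apply, Finsupp.zipWith_apply, Finsupp.zipWith_apply]
        simp only [smul_fst, smul_snd, map_add, map_smul, Finsupp.add_apply, Finsupp.smul_apply,
          RingHom.id_apply, smul_eq_mul, unop_add, unop_mul, unop_op]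
        rw [← U_mul]
        rfl }
  let T : (X →₀ (EA K L)ᵐᵒᵖ) →ₗ[(EA K L)ᵐᵒᵖ] L2 X :=
    Finsupp.linearCombination (EA K L)ᵐᵒᵖ (fun x : X => (⟨0, x⟩ : L2 X))
  refine Module.Projective.of_split S T (LinearMap.ext fun z => ?_)
  show T (S z) = z
  have e : ∀ w : L2 X, T (S w) = ∑ i ∈ (s w.fst).support ∪ (s w.snd).support,
      (⟨(s w.fst) i • i, (s w.snd) i • i⟩ : L2 X) := by
    intro w
    show Finsupp.linearCombination _ _ (Finsupp.zipWith _ _ _ _) = _
    rw [Finsupp.linearCombination_apply, Finsupp.sum_of_support_subset _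
      Finsupp.support_zipWith _ (fun i _ => by simp)]
    refine Finset.sum_congr rfl fun i _ => ?_
    rw [Finsupp.zipWith_apply, act_U]
    rfl
  have hf : ∀ (t : Finset X) (p q : X → X), (∑ i ∈ t, (⟨p i, q i⟩ : L2 X)) =
      ⟨∑ i ∈ t, p i, ∑ i ∈ t, q i⟩ := by
    intro t p q
    induction t using Finset.induction_on with
    | empty => rfl
    | insert a t ha ih =>
      rw [Finset.sum_insert ha, Finset.sum_insert ha, Finset.sum_insert ha, ih]
      rfl
  rw [e, hf]
  have h1 : ∀ x : X, ∀ t : Finset X, (s x).support ⊆ t → ∑ i ∈ t, (s x) i • i = x := by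
    intro x t ht
    have h2 := hs x
    rw [Finsupp.linearCombination_apply, Finsupp.sum_of_support_subset _ ht _
      (fun i _ => by simp)] at h2
    exact h2
  rw [h1 z.fst _ Finset.subset_union_left, h1 z.snd _ Finset.subset_union_right]

end L2

end Pool.Agent.H3.Gendo
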