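import Pool.Agent.H3.Gendo.Props
import Pool.Agent.H3.Gendo.Ext
import Pool.Agent.H3.Rig.RigFam
import Pool.Agent.H3.Rig.RigGreen
import Pool.Agent.H3.Rig.RigConn
import Pool.Agent.H3.Rig.Family

/-!
# The gendo-symmetric algebra with `o_k = ∞` for all `k`
-/

set_option autoImplicit false

namespace Pool.Agent.H3.Gendo

open MulOpposite CategoryTheory CategoryTheory.Limits CategoryTheory.Abelian

universe u

instance alg_fin (K : Type u) [Field K] : Module.Finite K (W450.Rig.Alg K) :=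
  Module.Finite.equiv (MulOpposite.opLinearEquiv K : W450.Rig.Cen K ≃ₗ[K] (W450.Rig.Cen K)ᵐᵒᵖ)

instance alg_nontrivial (K : Type u) [Field K] : Nontrivial (W450.Rig.Alg K) :=
  (W450.Rig.alg_connected K).1

/-- The gendo-symmetric algebra of the counterexample. -/
abbrev Ctr (K : Type u) [Field K] : Type u := EA K (W450.Rig.Alg K)

theorem ctr_family (K : Type u) [Field K] [CharZero K] :
    W450.Rig.IsOrthFamily (fun n => ModuleCat.of (Ctr K)ᵐᵒᵖ (L2 (W450.Rig.Xfam K n))) :=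
  orth_L2 (W450.Rig.orth_family K (fun m n => W450.Rig.green_irr K m n))

theorem ctr_unbounded (K : Type u) [Field K] [CharZero K] :
    (∀ N : ℕ, ∃ M : ModuleCat.{u} (Ctr K)ᵐᵒᵖ, Module.Finite (Ctr K)ᵐᵒᵖ M ∧
      (∀ i, 1 ≤ i → Subsingleton (Ext M M i)) ∧ (N : ℕ∞) ≤ size M) ∧ ∀ k, o (Ctr K) k = ⊤ :=
  W450.Rig.unbounded_of_family (Ctr K) _ (ctr_family K)

end Pool.Agent.H3.Gendo
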