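import Pool.Agent.H3.Gendo.Endo
import Pool.Agent.H3.Gendo.Defs

/-!
# Ring-theoretic properties of the trivial extension and of the endomorphism algebra
-/

set_option autoImplicit false

namespace Pool.Agent.H3.Gendo

open MulOpposite

universe u

theorem not_semisimple_of {A : Type u} [Ring A] (x : A) (hx : x ≠ 0)
    (h : ∀ a : A, x * a * x = 0) : ¬ IsSemisimpleRing A := by
  intro hs
  obtain ⟨N', hN'⟩ := exists_isCompl (Submodule.span A {x})
  have h1 : (1 : A) ∈ Submodule.span A {x} ⊔ N' := by
    rw [hN'.sup_eq_top]; exact Submodule.mem_top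
  obtain ⟨y, hy, z, hz, hyz⟩ := Submodule.mem_sup.1 h1
  obtain ⟨a, rfl⟩ := Submodule.mem_span_singleton.1 hy
  have h2 : x = x * z := by
    calc x = x * (a • x + z) := by rw [hyz, mul_one]
      _ = x * a * x + x * z := by rw [mul_add, smul_eq_mul, mul_assoc]
      _ = x * z := by rw [h, zero_add]
  have h3 : x ∈ N' := by
    rw [h2]; exact N'.smul_mem x hz
  have h4 : x ∈ Submodule.span A {x} ⊓ N' := ⟨Submodule.mem_span_singleton_self x, h3⟩
  rw [hN'.inf_eq_bot] at h4
  exact hx ((Submodule.mem_bot A).1 h4)

variable (K : Type u) [Field K] (L : Type u) [Ring L] [Algebra K L]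

theorem te_symm [Module.Finite K L] : IsSymm K (TE K L) :=
  ⟨LinearMap.linearEquivOfInjective TE.form TE.form_inj Subspace.dual_finrank_eq.symm,
    fun a x b y => TE.form_assoc a x b y⟩

theorem exists_db [Nontrivial L] : ∃ φ : DB K L, φ ≠ 0 := by
  by_contra h
  push Not at h
  apply one_ne_zero (α := L)
  apply DB.eq_zero_of_ev (K := K)
  intro φ
  rw [h φ]
  rfl

theorem te_isAlg [Module.Finite K L] [Nontrivial L]
    (hc : ∀ c : L, (∀ a : L, c * a = a * c) → c * c = c → c = 0 ∨ c = 1) :
    IsAlg K (TE K L) where
  finite := inferInstance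
  nontrivial := by
    refine ⟨⟨1, 0, fun h => ?_⟩⟩
    exact one_ne_zero (α := L) (congrArg TrivSqZeroExt.fst h)
  connected := by
    have key : ∀ c : TE K L, c.fst = 0 → c * c = c → c = 0 := by
      intro c h1 h2
      rw [← h2]
      exact TrivSqZeroExt.ext (by simp [h1]) (by simp [h1])
    intro c h1 h2
    have h3 := hc c.fst (fun a => by
      have := congrArg TrivSqZeroExt.fst (h1 (TrivSqZeroExt.inl a))
      simpa using this) (by
      have := congrArg TrivSqZeroExt.fst h2
      simpa using this)
    rcases h3 with h | h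
    · left; exact key c h h2
    · right
      have h4 := key (1 - c) (by simp [h]) (by
        rw [sub_mul, mul_sub, mul_sub, h2]; simp)
      exact (sub_eq_zero.1 h4).symm
  not_semisimple := by
    obtain ⟨φ, hφ⟩ := exists_db K L
    apply not_semisimple_of (TrivSqZeroExt.inr φ : TE K L)
    · intro h
      apply hφ
      have := congrArg TrivSqZeroExt.snd h
      simpa using this
    · intro a
      exact TrivSqZeroExt.ext (by simp) (by simp)

instance gm_finite [Module.Finite K L] : Module.Finite K (GM K L) := by
  have : Module.Finite K (NB L) := inferInstanceAs (Module.Finite K L)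
  infer_instance

theorem ea_finite [Module.Finite K L] : Module.Finite K (EA K L) := by
  let f : EA K L →ₗ[K] (GM K L →ₗ[K] GM K L) :=
    { toFun := fun a => a.restrictScalars K
      map_add' := fun _ _ => rfl
      map_smul' := fun _ _ => rfl }
  refine Module.Finite.of_injective f fun a b h => ?_
  exact LinearMap.ext fun x => LinearMap.congr_fun h x

variable {K L} in
theorem u_ne [Nontrivial L] : (U 1 0 : EA K L) ≠ 0 := by
  intro h
  have h1 := congrArg c21 h
  simp at h1

theorem ea_isAlg [Module.Finite K L] [Nontrivial L]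
    (hc : ∀ c : L, (∀ a : L, c * a = a * c) → c * c = c → c = 0 ∨ c = 1) :
    IsAlg K (EA K L) where
  finite := ea_finite K L
  nontrivial := ⟨⟨U 1 0, 0, u_ne⟩⟩
  connected := by
    have key : ∀ c : EA K L, (∀ a, c * a = a * c) → c * c = c → c22 c = 0 → c = 0 := by
      intro c h1 h2 h3
      have h4 : c21 c = 0 := by
        have := congrArg c21 (h1 (U 0 1))
        rw [c21_mul, c21_mul] at this
        simpa [h3] using this.symm
      have h5 : c11 c = 0 := by
        have := congrArg c21 (h1 (U 1 0))
        rw [c21_mul, c21_mul] at this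
        simpa [h3] using this.symm
      rw [← h2]
      exact sq_zero c h5 h4 h3
    intro c h1 h2
    have h3 := hc (c22 c) (fun a => by
      have := congrArg c22 (h1 (U 0 a))
      rw [c22_mul, c22_mul, c22_U] at this
      exact this) (by
      rw [← c22_mul, h2])
    rcases h3 with h | h
    · left; exact key c h1 h2 h
    · right
      have h4 := key (1 - c) (fun a => by
          rw [sub_mul, mul_sub, one_mul, mul_one, h1]) (by
          rw [sub_mul, mul_sub, mul_sub, h2]; simp) (by
          have e : c22 (1 - c) = c22 (1 : EA K L) - c22 c := rfl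
          rw [e, h, c22_one, sub_self])
      exact (sub_eq_zero.1 h4).symm
  not_semisimple := by
    apply not_semisimple_of (U 1 0 : EA K L) u_ne
    intro a
    rw [U_mul, U_mul]
    simp only [zero_mul, c21_U, c22_U, c11_U, mul_zero, add_zero, U_zero]

theorem ea_gendo [Module.Finite K L] [Nontrivial L]
    (hc : ∀ c : L, (∀ a : L, c * a = a * c) → c * c = c → c = 0 ∨ c = 1) :
    IsGendoSymm K (EA K L) := by
  refine ⟨TE K L, inferInstance, inferInstance, te_isAlg K L hc, te_symm K L, GM K L,
    inferInstance, inferInstance, inferInstance, inferInstance, inferInstance,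
    ⟨1, LinearMap.pi fun _ => LinearMap.inl _ _ _,
      LinearMap.fst _ _ _ ∘ₗ LinearMap.proj 0, ?_⟩, ⟨AlgEquiv.refl⟩⟩
  rfl

end Pool.Agent.H3.Gendo
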